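import Pool.Agent.W574.HS.Minus

set_option autoImplicit false

/-! # The formal module `A[s, ∂_t, ∂_t⁻¹] f ^ s` and its evaluation at the natural numbers -/

namespace Pool.Agent.N87.SU

open MvPolynomial
open Pool.Agent.H628R4.TP (weylS)

/-- `k! / (k - j)!` -/
noncomputable def kj (k : ℕ) (j : ℤ) : ℂ :=
  if (k : ℤ) < j then 0 else (k.factorial : ℂ) / ((((k : ℤ) - j).toNat).factorial : ℂ)

lemma kj_of_lt {k : ℕ} {j : ℤ} (h : (k : ℤ) < j) : kj k j = 0 := if_pos h

lemma kj_of_le {k : ℕ} {j : ℤ} (h : j ≤ (k : ℤ)) :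
    kj k j = (k.factorial : ℂ) / ((((k : ℤ) - j).toNat).factorial : ℂ) := if_neg (not_lt.2 h)

lemma kj_zero (k : ℕ) : kj k 0 = 1 := by
  rw [kj_of_le (by positivity)]
  have : ((k : ℤ) - 0).toNat = k := by simp
  rw [this]
  exact div_self (by exact_mod_cast k.factorial_ne_zero)

lemma kj_succ (k : ℕ) (j : ℤ) : kj k (j + 1) = ((k : ℂ) - (j : ℂ)) * kj k j := by
  rcases lt_trichotomy (k : ℤ) j with h | h | h
  · rw [kj_of_lt h, kj_of_lt (by omega), mul_zero]
  · rw [kj_of_lt (by omega), ← h]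
    simp
  · obtain ⟨m, hm⟩ : ∃ m : ℕ, (k : ℤ) - j = (m : ℤ) + 1 := ⟨((k : ℤ) - j - 1).toNat, by omega⟩
    rw [kj_of_le (by omega), kj_of_le h.le]
    have h1 : ((k : ℤ) - j).toNat = m + 1 := by omega
    have h2 : ((k : ℤ) - (j + 1)).toNat = m := by omega
    have h3 : (k : ℂ) - (j : ℂ) = (m : ℂ) + 1 := by
      have := congrArg (Int.cast : ℤ → ℂ) hm
      push_cast at this
      exact this
    rw [h1, h2, h3, Nat.factorial_succ]
    have h4 : (m.factorial : ℂ) ≠ 0 := by exact_mod_cast m.factorial_ne_zero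
    have h5 : ((m : ℂ) + 1) ≠ 0 := by exact_mod_cast Nat.succ_ne_zero m
    push_cast
    field_simp

section

variable {ι : Type} (f : MvPolynomial ι ℂ)

/-- the evaluation at `k` -/
noncomputable def ev (k : ℕ) : (ℤ →₀ MvPolynomial ι ℂ) →ₗ[ℂ] MvPolynomial ι ℂ :=
  Finsupp.lsum ℂ fun j : ℤ => (kj k j) • LinearMap.mulRight ℂ (f ^ ((k : ℤ) - j).toNat)

lemma ev_single (k : ℕ) (j : ℤ) (r : MvPolynomial ι ℂ) :
    ev f k (Finsupp.single j r) = kj k j • (r * f ^ ((k : ℤ) - j).toNat) := by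
  unfold ev
  rw [Finsupp.lsum_single]
  rfl

/-- `(δ r) d ^ j + g r d ^ (j + 1)` -/
noncomputable def dd (δ : MvPolynomial ι ℂ →ₗ[ℂ] MvPolynomial ι ℂ) (g : MvPolynomial ι ℂ) :
    (ℤ →₀ MvPolynomial ι ℂ) →ₗ[ℂ] (ℤ →₀ MvPolynomial ι ℂ) :=
  Finsupp.lsum ℂ fun j : ℤ => Finsupp.lsingle j ∘ₗ δ + Finsupp.lsingle (j + 1) ∘ₗ
    LinearMap.mulLeft ℂ g

lemma dd_single (δ : MvPolynomial ι ℂ →ₗ[ℂ] MvPolynomial ι ℂ) (g : MvPolynomial ι ℂ) (j : ℤ)
    (r : MvPolynomial ι ℂ) : dd δ g (Finsupp.single j r) =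
      Finsupp.single j (δ r) + Finsupp.single (j + 1) (g * r) := by
  unfold dd
  rw [Finsupp.lsum_single]
  rfl

/-- the derivations -/
noncomputable def Dv (i : ι) : (ℤ →₀ MvPolynomial ι ℂ) →ₗ[ℂ] (ℤ →₀ MvPolynomial ι ℂ) :=
  dd ((pderiv i : Derivation ℂ (MvPolynomial ι ℂ) (MvPolynomial ι ℂ)) :
    MvPolynomial ι ℂ →ₗ[ℂ] MvPolynomial ι ℂ) (pderiv i f)

lemma Dv_single (i : ι) (j : ℤ) (r : MvPolynomial ι ℂ) : Dv f i (Finsupp.single j r) =
    Finsupp.single j (pderiv i r) + Finsupp.single (j + 1) (pderiv i f * r) := dd_single _ _ _ _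

/-- multiplication by `q` -/
noncomputable def mu (q : MvPolynomial ι ℂ) :
    (ℤ →₀ MvPolynomial ι ℂ) →ₗ[ℂ] (ℤ →₀ MvPolynomial ι ℂ) :=
  Finsupp.lsum ℂ fun j : ℤ => Finsupp.lsingle j ∘ₗ LinearMap.mulLeft ℂ q

lemma mu_single (q : MvPolynomial ι ℂ) (j : ℤ) (r : MvPolynomial ι ℂ) :
    mu q (Finsupp.single j r) = Finsupp.single j (q * r) := by
  unfold mu
  rw [Finsupp.lsum_single]
  rfl

/-- the operator `s` -/
noncomputable def ss : (ℤ →₀ MvPolynomial ι ℂ) →ₗ[ℂ] (ℤ →₀ MvPolynomial ι ℂ) :=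
  Finsupp.lsum ℂ fun j : ℤ => Finsupp.lsingle (j + 1) ∘ₗ LinearMap.mulLeft ℂ f +
    (j : ℂ) • Finsupp.lsingle j

lemma ss_single (j : ℤ) (r : MvPolynomial ι ℂ) : ss f (Finsupp.single j r) =
    Finsupp.single (j + 1) (f * r) + (j : ℂ) • Finsupp.single j r := by
  unfold ss
  rw [Finsupp.lsum_single]
  rfl

/-- two linear maps are equal if they are equal on the elements `r d ^ j` -/
lemma ext_single {M : Type*} [AddCommMonoid M] [Module ℂ M]
    {S T : (ℤ →₀ MvPolynomial ι ℂ) →ₗ[ℂ] M}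
    (h : ∀ j r, S (Finsupp.single j r) = T (Finsupp.single j r)) : S = T := by
  apply Finsupp.lhom_ext
  exact h

lemma toNat_sub_succ {k : ℕ} {j : ℤ} (h : j + 1 ≤ (k : ℤ)) :
    ((k : ℤ) - j).toNat = ((k : ℤ) - (j + 1)).toNat + 1 := by omega

lemma ev_mu (k : ℕ) (q : MvPolynomial ι ℂ) (v : ℤ →₀ MvPolynomial ι ℂ) :
    ev f k (mu q v) = q * ev f k v := by
  have h : ev f k ∘ₗ mu q = LinearMap.mulLeft ℂ q ∘ₗ ev f k := by
    apply ext_single
    intro j r
    rw [LinearMap.comp_apply, LinearMap.comp_apply, mu_single, ev_single, ev_single,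
      LinearMap.mulLeft_apply, mul_smul_comm, mul_assoc]
  exact LinearMap.congr_fun h v

lemma ev_Dv (k : ℕ) (i : ι) (v : ℤ →₀ MvPolynomial ι ℂ) :
    ev f k (Dv f i v) = pderiv i (ev f k v) := by
  have h : ev f k ∘ₗ Dv f i = ((pderiv i : Derivation ℂ (MvPolynomial ι ℂ) (MvPolynomial ι ℂ)) :
      MvPolynomial ι ℂ →ₗ[ℂ] MvPolynomial ι ℂ) ∘ₗ ev f k := by
    apply ext_single
    intro j r
    rw [LinearMap.comp_apply, LinearMap.comp_apply, Dv_single, map_add, ev_single, ev_single,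
      ev_single]
    change _ = pderiv i (kj k j • (r * f ^ ((k : ℤ) - j).toNat))
    rw [Derivation.map_smul, Derivation.leibniz, Derivation.leibniz_pow, smul_eq_mul, smul_eq_mul,
      kj_succ, smul_eq_mul, nsmul_eq_mul]
    by_cases hj : j + 1 ≤ (k : ℤ)
    · rw [toNat_sub_succ hj, Nat.add_sub_cancel]
      have h1 : (k : ℂ) - (j : ℂ) = ((((k : ℤ) - (j + 1)).toNat + 1 : ℕ) : ℂ) := by
        have h2 : (k : ℤ) - j = ((((k : ℤ) - (j + 1)).toNat + 1 : ℕ) : ℤ) := by
          push_cast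
          omega
        have := congrArg (Int.cast : ℤ → ℂ) h2
        push_cast at this ⊢
        exact this
      rw [h1]
      simp only [smul_eq_C_mul, map_mul, map_natCast]
      ring
    · rcases lt_trichotomy (k : ℤ) j with h | h | h
      · rw [kj_of_lt h]
        simp
      · have h0 : (k : ℂ) - (j : ℂ) = 0 := by rw [← h]; simp
        have h1 : ((k : ℤ) - j).toNat = 0 := by omega
        rw [h0, h1]
        simp
      · exact absurd (by omega) hj
  exact LinearMap.congr_fun h v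

lemma ev_ss (k : ℕ) (v : ℤ →₀ MvPolynomial ι ℂ) : ev f k (ss f v) = (k : ℂ) • ev f k v := by
  have h : ev f k ∘ₗ ss f = (k : ℂ) • ev f k := by
    apply ext_single
    intro j r
    rw [LinearMap.comp_apply, LinearMap.smul_apply, ss_single, map_add, map_smul, ev_single,
      ev_single, kj_succ]
    by_cases hj : j + 1 ≤ (k : ℤ)
    · rw [toNat_sub_succ hj, pow_succ]
      simp only [smul_eq_C_mul, map_mul, map_sub]
      ring
    · rcases lt_trichotomy (k : ℤ) j with h | h | h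
      · rw [kj_of_lt h]
        simp
      · have h0 : (k : ℂ) = (j : ℂ) := by rw [← h]; simp
        rw [h0]
        simp
      · exact absurd (by omega) hj
  exact LinearMap.congr_fun h v

/-- the formal action of the elements of the Weyl algebra -/
theorem lift (Q : Module.End ℂ (MvPolynomial ι ℂ)) (hQ : Q ∈ weylS ι) :
    ∃ Q' : Module.End ℂ (ℤ →₀ MvPolynomial ι ℂ), (∀ k v, ev f k (Q' v) = Q (ev f k v)) ∧
      ∀ S : Submodule ℂ (ℤ →₀ MvPolynomial ι ℂ), (∀ i, ∀ v ∈ S, mu (X i) v ∈ S) →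
        (∀ i, ∀ v ∈ S, Dv f i v ∈ S) → ∀ v ∈ S, Q' v ∈ S := by
  induction hQ using Algebra.adjoin_induction with
  | mem Q hQ =>
    rcases hQ with ⟨i, rfl⟩ | ⟨i, rfl⟩
    · exact ⟨mu (X i), fun k v => ev_mu f k (X i) v, fun S h1 _ v hv => h1 i v hv⟩
    · exact ⟨Dv f i, fun k v => ev_Dv f k i v, fun S _ h2 v hv => h2 i v hv⟩
  | algebraMap c =>
    refine ⟨c • LinearMap.id, fun k v => ?_, fun S _ _ v hv => S.smul_mem c hv⟩
    rw [LinearMap.smul_apply, LinearMap.id_apply, map_smul]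
    rfl
  | add Q1 Q2 _ _ h1 h2 =>
    obtain ⟨R1, a1, b1⟩ := h1
    obtain ⟨R2, a2, b2⟩ := h2
    refine ⟨R1 + R2, fun k v => ?_, fun S s1 s2 v hv => S.add_mem (b1 S s1 s2 v hv) (b2 S s1 s2 v hv)⟩
    rw [LinearMap.add_apply, map_add, a1, a2]
    rfl
  | mul Q1 Q2 _ _ h1 h2 =>
    obtain ⟨R1, a1, b1⟩ := h1
    obtain ⟨R2, a2, b2⟩ := h2
    refine ⟨R1 * R2, fun k v => ?_, fun S s1 s2 v hv => b1 S s1 s2 _ (b2 S s1 s2 v hv)⟩
    rw [Module.End.mul_apply, a1, a2]
    rfl

/-- the evaluation is injective -/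
theorem ev_inj (hf : f ≠ 0) {v : ℤ →₀ MvPolynomial ι ℂ} (h : ∀ k, ev f k v = 0) : v = 0 := by
  classical
  obtain ⟨I, hI⟩ : ∃ I : ℕ, ∀ j ∈ v.support, -(I : ℤ) ≤ j := by
    refine ⟨∑ j ∈ v.support, j.natAbs, fun j hj => ?_⟩
    have h1 : j.natAbs ≤ ∑ j ∈ v.support, j.natAbs :=
      Finset.single_le_sum (f := fun j : ℤ => j.natAbs) (fun _ _ => Nat.zero_le _) hj
    omega
  obtain ⟨J, hJ⟩ : ∃ J : ℕ, ∀ j ∈ v.support, j ≤ (J : ℤ) := by
    refine ⟨∑ j ∈ v.support, j.natAbs, fun j hj => ?_⟩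
    have h1 : j.natAbs ≤ ∑ j ∈ v.support, j.natAbs :=
      Finset.single_le_sum (f := fun j : ℤ => j.natAbs) (fun _ _ => Nat.zero_le _) hj
    omega
  let Q : Polynomial (MvPolynomial ι ℂ) := ∑ j ∈ v.support,
    Polynomial.C (v j * f ^ ((J : ℤ) - j).toNat) * descPochhammer (MvPolynomial ι ℂ) (j + I).toNat
  have hQe : ∀ m : ℕ, Q.eval (m : MvPolynomial ι ℂ) = ∑ j ∈ v.support,
      v j * f ^ ((J : ℤ) - j).toNat * ((m.descFactorial (j + I).toNat : ℕ) : MvPolynomial ι ℂ) := by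
    intro m
    simp only [Q, Polynomial.eval_finsetSum, Polynomial.eval_mul, Polynomial.eval_C,
      descPochhammer_eval_eq_descFactorial]
  have hk : ∀ k : ℕ, J ≤ k → Q.eval ((k + I : ℕ) : MvPolynomial ι ℂ) = 0 := by
    intro k hk
    have h1 : ev f k v = ∑ j ∈ v.support, kj k j • (v j * f ^ ((k : ℤ) - j).toNat) := by
      unfold ev
      rw [Finsupp.lsum_apply]
      rfl
    have h2 : f ^ (k - J) * Q.eval ((k + I : ℕ) : MvPolynomial ι ℂ) =
        (((k + I).factorial : ℂ) / (k.factorial : ℂ)) • ev f k v := by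
      rw [h1, hQe, Finset.mul_sum, Finset.smul_sum]
      refine Finset.sum_congr rfl fun j hj => ?_
      have e1 := hI j hj
      have e2 := hJ j hj
      have e3 : ((k : ℤ) - j).toNat = (k - J) + ((J : ℤ) - j).toNat := by omega
      rw [smul_smul, kj_of_le (by omega), e3, pow_add]
      have e4 : ((((k + I).descFactorial (j + I).toNat : ℕ) : MvPolynomial ι ℂ)) =
          C (((k + I).factorial : ℂ) / (k.factorial : ℂ) *
            ((k.factorial : ℂ) / ((((k - J) + ((J : ℤ) - j).toNat).factorial : ℕ) : ℂ))) := by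
        have e5 := Nat.factorial_mul_descFactorial (n := k + I) (k := (j + I).toNat) (by omega)
        have e6 : k + I - (j + I).toNat = (k - J) + ((J : ℤ) - j).toNat := by omega
        rw [e6] at e5
        have e7 := congrArg (Nat.cast : ℕ → ℂ) e5
        push_cast at e7
        have e8 : ((((k - J) + ((J : ℤ) - j).toNat).factorial : ℕ) : ℂ) ≠ 0 := by
          exact_mod_cast Nat.factorial_ne_zero _
        have e9 : (k.factorial : ℂ) ≠ 0 := by exact_mod_cast Nat.factorial_ne_zero _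
        rw [← map_natCast (C : ℂ →+* MvPolynomial ι ℂ)]
        congr 1
        rw [← e7]
        field_simp
      rw [e4, smul_eq_C_mul]
      ring
    rw [h k, smul_zero] at h2
    exact (mul_eq_zero.1 h2).resolve_left (pow_ne_zero _ hf)
  have hQ0 : Q = 0 := by
    apply Polynomial.eq_zero_of_infinite_isRoot
    refine Set.Infinite.mono ?_ (Set.infinite_range_of_injective
      (f := fun n : ℕ => ((n + J + I : ℕ) : MvPolynomial ι ℂ)) ?_)
    · rintro _ ⟨n, rfl⟩
      exact hk (n + J) (by omega)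
    · intro a b hab
      have := Nat.cast_injective hab
      omega
  have hz : ∀ m : ℕ, v ((m : ℤ) - I) = 0 := by
    intro m
    induction m using Nat.strong_induction_on with
    | _ m ih =>
      by_cases hm : ((m : ℤ) - I) ∈ v.support
      · have h1 := hQe m
        rw [hQ0, Polynomial.eval_zero, Finset.sum_eq_single ((m : ℤ) - I)] at h1
        · have h2 : ((m : ℤ) - I + I).toNat = m := by omega
          rw [h2, Nat.descFactorial_self] at h1
          have h3 : ((m.factorial : ℕ) : MvPolynomial ι ℂ) ≠ 0 := by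
            exact_mod_cast m.factorial_ne_zero
          rcases mul_eq_zero.1 h1.symm with h4 | h4
          · exact (mul_eq_zero.1 h4).resolve_right (pow_ne_zero _ hf)
          · exact absurd h4 h3
        · intro j hj hne
          rcases lt_or_gt_of_ne hne with h2 | h2
          · have h3 := hI j hj
            have h4 := ih (j + I).toNat (by omega)
            have h5 : (((j + I).toNat : ℕ) : ℤ) - I = j := by omega
            rw [h5] at h4
            rw [h4]
            simp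
          · rw [Nat.descFactorial_eq_zero_iff_lt.2 (by omega)]
            simp
        · intro h2
          exact absurd hm h2
      · exact Finsupp.notMem_support_iff.1 hm
  ext1 j
  by_cases hj : j ∈ v.support
  · have h1 := hz (j + I).toNat
    have h2 := hI j hj
    have h3 : (((j + I).toNat : ℕ) : ℤ) - I = j := by omega
    rwa [h3] at h1
  · exact Finsupp.notMem_support_iff.1 hj

/-- polynomials of an operator -/
theorem aeval_op {M N : Type*} [AddCommGroup M] [Module ℂ M] [AddCommGroup N] [Module ℂ N]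
    (T : Module.End ℂ M) (φ : M →ₗ[ℂ] N) (c : ℂ) (h : ∀ v, φ (T v) = c • φ v) (p : Polynomial ℂ)
    (v : M) : φ (Polynomial.aeval T p v) = p.eval c • φ v := by
  induction p using Polynomial.induction_on' with
  | add p q hp hq => rw [map_add, LinearMap.add_apply, map_add, hp, hq, Polynomial.eval_add, add_smul]
  | monomial m a =>
    rw [Polynomial.aeval_monomial, Polynomial.eval_monomial, Module.algebraMap_end_eq_smul_id,
      smul_mul_assoc, LinearMap.smul_apply, map_smul, mul_smul]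
    congr 1
    change φ ((T ^ m) v) = _
    induction m with
    | zero => simp
    | succ m ih => rw [pow_succ', Module.End.mul_apply, h, ih, smul_smul, pow_succ']

end

end Pool.Agent.N87.SU
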