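import Pool.Agent.N87.SU.Core

set_option autoImplicit false

/-! # The submodule of the formal module of `F(x) + G(y)` -/

namespace Pool.Agent.N87.SU

open MvPolynomial
open Pool.Agent.H628R4.TP (weylS IsBFunction)

variable {σ τ : Type} {w : τ → ℕ} {D : ℕ} {L : MvPolynomial τ ℂ →ₗ[ℂ] ℂ}
  (F : MvPolynomial σ ℂ) {G : MvPolynomial τ ℂ}

/-- `h ↦ (k ↦ ev_k(Ψ(h v)))` -/
noncomputable def Phi (w : τ → ℕ) (D : ℕ) (L : MvPolynomial τ ℂ →ₗ[ℂ] ℂ) (h : MvPolynomial τ ℂ) :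
    (ℤ →₀ MvPolynomial (σ ⊕ τ) ℂ) →ₗ[ℂ] (ℕ → MvPolynomial σ ℂ) :=
  LinearMap.pi (fun k => ev F k) ∘ₗ Psi w D L ∘ₗ mu (rename Sum.inr h)

lemma Phi_apply (h : MvPolynomial τ ℂ) (v : ℤ →₀ MvPolynomial (σ ⊕ τ) ℂ) (k : ℕ) :
    Phi F w D L h v k = ev F k (Psi w D L (mu (rename Sum.inr h) v)) := rfl

noncomputable def SSub (w : τ → ℕ) (D : ℕ) (L : MvPolynomial τ ℂ →ₗ[ℂ] ℂ)
    (S : Submodule ℂ (ℕ → MvPolynomial σ ℂ)) : Submodule ℂ (ℤ →₀ MvPolynomial (σ ⊕ τ) ℂ) :=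
  ⨅ h : MvPolynomial τ ℂ, S.comap (Phi F w D L h)

lemma mem_SSub {S : Submodule ℂ (ℕ → MvPolynomial σ ℂ)} {v : ℤ →₀ MvPolynomial (σ ⊕ τ) ℂ} :
    v ∈ SSub F w D L S ↔ ∀ h : MvPolynomial τ ℂ, Phi F w D L h v ∈ S := by
  unfold SSub
  rw [Submodule.mem_iInf]
  rfl

lemma mu_zero' (v : ℤ →₀ MvPolynomial (σ ⊕ τ) ℂ) : mu (0 : MvPolynomial (σ ⊕ τ) ℂ) v = 0 := by
  have e : mu (0 : MvPolynomial (σ ⊕ τ) ℂ) = 0 := by
    apply ext_single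
    intro j r
    rw [mu_single, zero_mul, Finsupp.single_zero]
    rfl
  rw [e]
  rfl

variable {F} {S : Submodule ℂ (ℕ → MvPolynomial σ ℂ)}

section fin

variable [Fintype τ]

lemma Phi_Xl (h : MvPolynomial τ ℂ) (i : σ) (v : ℤ →₀ MvPolynomial (σ ⊕ τ) ℂ) :
    Phi F w D L h (mu (X (Sum.inl i)) v) = fun k => X i * Phi F w D L h v k := by
  funext k
  rw [Phi_apply, Phi_apply, mu_mu, mul_comm, ← mu_mu, ← rename_X Sum.inl i, Psi_mu, ev_mu]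

omit [Fintype τ] in
lemma Phi_Xr (h : MvPolynomial τ ℂ) (i : τ) (v : ℤ →₀ MvPolynomial (σ ⊕ τ) ℂ) :
    Phi F w D L h (mu (X (Sum.inr i)) v) = Phi F w D L (h * X i) v := by
  funext k
  rw [Phi_apply, Phi_apply, mu_mu, map_mul, rename_X]

lemma s1 (hSX : ∀ i, ∀ v ∈ S, (fun k => X i * v k) ∈ S) (i : σ ⊕ τ)
    (v : ℤ →₀ MvPolynomial (σ ⊕ τ) ℂ) (hv : v ∈ SSub F w D L S) : mu (X i) v ∈ SSub F w D L S := by
  rw [mem_SSub] at hv ⊢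
  intro h
  rcases i with i | i
  · rw [Phi_Xl]
    exact hSX i _ (hv h)
  · rw [Phi_Xr]
    exact hv _

lemma Phi_Dl (h : MvPolynomial τ ℂ) (i : σ) (v : ℤ →₀ MvPolynomial (σ ⊕ τ) ℂ) :
    Phi F w D L h (Dv (FG F G) (Sum.inl i) v) = fun k => pderiv i (Phi F w D L h v k) := by
  funext k
  rw [Phi_apply, Phi_apply, mu_Dv, pd_inl_inr, mu_zero', sub_zero, Psi_Dx, ev_Dv]

lemma Phi_Dr (hD : 0 < D) (hG : G.IsWeightedHomogeneous w D)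
    (hL : ∀ i h, L (pderiv i h) = L (pderiv i G * h)) (h : MvPolynomial τ ℂ) (i : τ)
    (v : ℤ →₀ MvPolynomial (σ ⊕ τ) ℂ) :
    Phi F w D L h (Dv (FG F G) (Sum.inr i) v) = - Phi F w D L (pderiv i h) v := by
  funext k
  rw [Pi.neg_apply, Phi_apply, Phi_apply, mu_Dv, pd_inr_inr, map_sub, Psi_Dy F hD hG hL,
    map_sub, map_zero, zero_sub]

lemma s2 (hD : 0 < D) (hG : G.IsWeightedHomogeneous w D)
    (hL : ∀ i h, L (pderiv i h) = L (pderiv i G * h))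
    (hSD : ∀ i, ∀ v ∈ S, (fun k => pderiv i (v k)) ∈ S) (i : σ ⊕ τ)
    (v : ℤ →₀ MvPolynomial (σ ⊕ τ) ℂ) (hv : v ∈ SSub F w D L S) :
    Dv (FG F G) i v ∈ SSub F w D L S := by
  rw [mem_SSub] at hv ⊢
  intro h
  rcases i with i | i
  · rw [Phi_Dl]
    exact hSD i _ (hv h)
  · rw [Phi_Dr hD hG hL]
    exact S.neg_mem (hv _)

lemma ev_Psi_ss (hD : 0 < D) (hG : G.IsWeightedHomogeneous w D)
    (hL : ∀ i h, L (pderiv i h) = L (pderiv i G * h)) (k : ℕ)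
    (v : ℤ →₀ MvPolynomial (σ ⊕ τ) ℂ) : ev F k (Psi w D L (ss (FG F G) v)) =
      ((k : ℂ) - ((∑ i, w i : ℕ) : ℂ) / (D : ℂ)) • ev F k (Psi w D L v) := by
  rw [Psi_ss F hD hG hL, map_sub, ev_ss, map_smul, sub_smul]

lemma Phi_ss (hD : 0 < D) (hG : G.IsWeightedHomogeneous w D)
    (hL : ∀ i h, L (pderiv i h) = L (pderiv i G * h)) (h : MvPolynomial τ ℂ)
    (v : ℤ →₀ MvPolynomial (σ ⊕ τ) ℂ) : Phi F w D L h (ss (FG F G) v) =
      (fun k : ℕ => (k : ℂ) • Phi F w D L h v k) -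
        (((∑ i, w i : ℕ) : ℂ) / (D : ℂ)) • Phi F w D L h v := by
  funext k
  rw [Pi.sub_apply, Pi.smul_apply, Phi_apply, Phi_apply, mu_ss, ev_Psi_ss hD hG hL, sub_smul]

lemma s3 (hD : 0 < D) (hG : G.IsWeightedHomogeneous w D)
    (hL : ∀ i h, L (pderiv i h) = L (pderiv i G * h))
    (hSk : ∀ v ∈ S, (fun k : ℕ => (k : ℂ) • v k) ∈ S)
    (v : ℤ →₀ MvPolynomial (σ ⊕ τ) ℂ) (hv : v ∈ SSub F w D L S) :
    ss (FG F G) v ∈ SSub F w D L S := by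
  rw [mem_SSub] at hv ⊢
  intro h
  rw [Phi_ss hD hG hL]
  exact S.sub_mem (hSk _ (hv h)) (S.smul_mem _ (hv h))

omit [Fintype τ] in
lemma wt_nonneg (c : τ →₀ ℕ) : 0 ≤ Finsupp.weight (wi w) c := by
  rw [Finsupp.weight_apply]
  refine Finset.sum_nonneg fun i _ => ?_
  exact nsmul_nonneg (by unfold wi; positivity) _

lemma Phi_mon (c : τ →₀ ℕ)
    (hSe : ∀ e : ℕ, 1 ≤ e → (fun k : ℕ => ((k.factorial : ℂ) / ((k + e).factorial : ℂ)) •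
      F ^ (k + e)) ∈ S) :
    Phi F w D L (monomial c 1) (Finsupp.single (-1) 1) ∈ S := by
  have hm := hom_mon w c
  have hPsi := Psi_hom w D L (-1) (1 : MvPolynomial σ ℂ) hm
  rw [map_one, one_mul] at hPsi
  by_cases hdd : (D : ℤ) ∣ Finsupp.weight (wi w) c
  · rw [if_pos hdd] at hPsi
    obtain ⟨e, he⟩ : ∃ e : ℕ, Finsupp.weight (wi w) c / (D : ℤ) = (e : ℤ) :=
      ⟨_, (Int.toNat_of_nonneg (Int.ediv_nonneg (wt_nonneg c) (by positivity))).symm⟩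
    rw [he] at hPsi
    have e1 : Phi F w D L (monomial c 1) (Finsupp.single (-1) 1) =
        ((-1 : ℂ) ^ (e : ℤ) * L (monomial c 1)) •
          (fun k : ℕ => ((k.factorial : ℂ) / ((k + (e + 1)).factorial : ℂ)) • F ^ (k + (e + 1))) := by
      funext k
      have h2 : ((k : ℤ) - (-1 - (e : ℤ))).toNat = k + (e + 1) := by omega
      rw [Phi_apply, mu_single, mul_one, hPsi, map_smul, ev_single, Pi.smul_apply, one_mul,
        kj_of_le (by omega), h2]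
    rw [e1]
    exact S.smul_mem _ (hSe (e + 1) (by omega))
  · rw [if_neg hdd] at hPsi
    have e1 : Phi F w D L (monomial c 1) (Finsupp.single (-1) 1) = 0 := by
      funext k
      rw [Phi_apply, mu_single, mul_one, hPsi, map_zero]
      rfl
    rw [e1]
    exact S.zero_mem

noncomputable def TT (F : MvPolynomial σ ℂ) (w : τ → ℕ) (D : ℕ) (L : MvPolynomial τ ℂ →ₗ[ℂ] ℂ) :
    MvPolynomial τ ℂ →ₗ[ℂ] (ℕ → MvPolynomial σ ℂ) :=
  LinearMap.pi (fun k => ev F k) ∘ₗ Psi w D L ∘ₗ Finsupp.lsingle (-1) ∘ₗ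
    (rename Sum.inr : MvPolynomial τ ℂ →ₐ[ℂ] MvPolynomial (σ ⊕ τ) ℂ).toLinearMap

omit [Fintype τ] in
lemma TT_apply (h : MvPolynomial τ ℂ) : TT F w D L h = Phi F w D L h (Finsupp.single (-1) 1) := by
  funext k
  rw [Phi_apply, mu_single, mul_one]
  rfl

lemma s4 (hSe : ∀ e : ℕ, 1 ≤ e → (fun k : ℕ => ((k.factorial : ℂ) / ((k + e).factorial : ℂ)) •
      F ^ (k + e)) ∈ S) : Finsupp.single (-1) 1 ∈ SSub F w D L S := by
  rw [mem_SSub]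
  intro h
  rw [← TT_apply, ← support_sum_monomial_coeff h, map_sum]
  refine S.sum_mem fun c _ => ?_
  rw [mon_smul, map_smul, TT_apply]
  exact S.smul_mem _ (Phi_mon c hSe)

end fin

end Pool.Agent.N87.SU
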