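import Pool.Agent.N87.SU.Gen2
import Pool.Agent.N87.SU.Sub

set_option autoImplicit false

/-! # Functional equations of `F(x) + G(y)` give microlocal functional equations of `F(x)` -/

namespace Pool.Agent.N87.SU

open MvPolynomial
open Pool.Agent.H628R4.TP (weylS IsBFunction)

variable {σ τ : Type} [Fintype τ] {w : τ → ℕ} {D : ℕ} {L : MvPolynomial τ ℂ →ₗ[ℂ] ℂ}
  (F : MvPolynomial σ ℂ) {G : MvPolynomial τ ℂ}

lemma unit_aux (hn : Nonempty τ) (hL : ∀ i h, L (pderiv i h) = L (pderiv i G * h)) (h1 : L 1 = 1) :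
    FG F G ≠ 0 ∧ ¬ FG F G ∣ 1 := by
  obtain ⟨i⟩ := hn
  have hG : pderiv i G ≠ 0 := by
    intro h0
    have h2 := hL i (X i)
    rw [pderiv_X_self, h0, zero_mul, map_zero, h1] at h2
    exact one_ne_zero h2
  have hne : pderiv (Sum.inr i) (FG F G) ≠ 0 := by
    rw [map_add, pd_inr_inl, pd_inr_inr, zero_add]
    intro h0
    exact hG (rename_injective _ Sum.inr_injective (by rw [h0, map_zero]))
  constructor
  · intro h0
    rw [h0, map_zero] at hne
    exact hne rfl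
  · intro h0
    have hu : IsUnit (FG F G) := isUnit_of_dvd_one h0
    have h2 := (MvPolynomial.isUnit_iff_totalDegree_of_isReduced.1 hu).2
    rw [totalDegree_eq_zero_iff_eq_C] at h2
    rw [h2, pderiv_C] at hne
    exact hne rfl

lemma Psi_one (hL1 : L 1 = 1) (k : ℕ) :
    ev F k (Psi w D L (Finsupp.single 0 1)) = F ^ k := by
  have hm0 : (1 : MvPolynomial τ ℂ).IsWeightedHomogeneous (wi w) 0 := isWeightedHomogeneous_one _ _
  have h4 := Psi_hom w D L 0 (1 : MvPolynomial σ ℂ) hm0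
  rw [map_one, map_one, one_mul, if_pos (dvd_zero _), Int.zero_ediv, zpow_zero, one_mul, hL1,
    one_smul, sub_zero] at h4
  rw [h4, ev_single_zero_one]

lemma Phi_V (hD : 0 < D) (hG : G.IsWeightedHomogeneous w D)
    (hL : ∀ i h, L (pderiv i h) = L (pderiv i G * h)) (hL1 : L 1 = 1) (b' : Polynomial ℂ) (k : ℕ) :
    ev F k (Psi w D L (Polynomial.aeval
      (ss (FG F G) : Module.End ℂ (ℤ →₀ MvPolynomial (σ ⊕ τ) ℂ)) b' (Finsupp.single 0 1))) =
    (b'.comp (Polynomial.X - Polynomial.C (((∑ i, w i : ℕ) : ℂ) / (D : ℂ)))).eval (k : ℂ) •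
      F ^ k := by
  have h3 := aeval_op (ss (FG F G)) (ev F k ∘ₗ Psi w D L)
      ((k : ℂ) - ((∑ i, w i : ℕ) : ℂ) / (D : ℂ)) (fun v => ev_Psi_ss hD hG hL k v) b'
      (Finsupp.single 0 1)
  rw [Polynomial.eval_comp, Polynomial.eval_sub, Polynomial.eval_X, Polynomial.eval_C,
    ← Psi_one (w := w) (D := D) F hL1 k]
  exact h3

/-- **The main theorem.** -/
theorem core (hn : Nonempty τ) (hD : 0 < D) (hG : G.IsWeightedHomogeneous w D)
    (hL : ∀ i h, L (pderiv i h) = L (pderiv i G * h)) (hL1 : L 1 = 1) (b : Polynomial ℂ)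
    (hb : IsBFunction (FG F G) b) :
    ∃ b' : Polynomial ℂ, b = (Polynomial.X + 1) * b' ∧
      ∀ S : Submodule ℂ (ℕ → MvPolynomial σ ℂ),
        (∀ i, ∀ v ∈ S, (fun k => X i * v k) ∈ S) → (∀ i, ∀ v ∈ S, (fun k => pderiv i (v k)) ∈ S) →
        (∀ v ∈ S, (fun k : ℕ => (k : ℂ) • v k) ∈ S) →
        (∀ e : ℕ, 1 ≤ e → (fun k : ℕ => ((k.factorial : ℂ) / ((k + e).factorial : ℂ)) •
          F ^ (k + e)) ∈ S) →
        (fun k : ℕ => (b'.comp (Polynomial.X - Polynomial.C (((∑ i, w i : ℕ) : ℂ) / (D : ℂ)))).eval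
          (k : ℂ) • F ^ k) ∈ S := by
  obtain ⟨hf0, hfu⟩ := unit_aux F hn hL hL1
  obtain ⟨b', hb', hV⟩ := exV (FG F G) hf0 hfu b hb
  refine ⟨b', hb', ?_⟩
  intro S hSX hSD hSk hSe
  have h1 := (mem_SSub F).1 (hV (SSub F w D L S) (s1 hSX) (s2 hD hG hL hSD) (s3 hD hG hL hSk)
    (s4 hSe)) 1
  have h2 : Phi F w D L 1 (Polynomial.aeval
      (ss (FG F G) : Module.End ℂ (ℤ →₀ MvPolynomial (σ ⊕ τ) ℂ)) b' (Finsupp.single 0 1)) =
      fun k : ℕ => (b'.comp (Polynomial.X -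
        Polynomial.C (((∑ i, w i : ℕ) : ℂ) / (D : ℂ)))).eval (k : ℂ) • F ^ k := by
    funext k
    rw [Phi_apply, map_one, mu_one, Phi_V F hD hG hL hL1]
  rw [h2] at h1
  exact h1

end Pool.Agent.N87.SU
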