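import Pool.Agent.N87.SU.Fml

set_option autoImplicit false

/-! # Functional equations of `F(x) + G(y)`: integration over `y` -/

namespace Pool.Agent.N87.SU

open MvPolynomial
open Pool.Agent.H628R4.TP (weylS IsBFunction)

section lam

variable {τ : Type} (w : τ → ℕ) (D : ℕ) (L : MvPolynomial τ ℂ →ₗ[ℂ] ℂ)

/-- the weights as integers -/
def wi : τ → ℤ := fun i => (w i : ℤ)

open Classical in
noncomputable def lamc (c : τ →₀ ℕ) : ℤ →₀ ℂ :=
  if (D : ℤ) ∣ Finsupp.weight (wi w) c then
    Finsupp.single (-(Finsupp.weight (wi w) c / D))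
      ((-1 : ℂ) ^ (Finsupp.weight (wi w) c / D : ℤ) * L (monomial c 1)) else 0

noncomputable def lam : MvPolynomial τ ℂ →ₗ[ℂ] (ℤ →₀ ℂ) :=
  (basisMonomials τ ℂ).constr ℂ (lamc w D L)

lemma lam_monomial (c : τ →₀ ℕ) : lam w D L (monomial c 1) = lamc w D L c := by
  have h := (basisMonomials τ ℂ).constr_basis ℂ (lamc w D L) c
  rw [coe_basisMonomials] at h
  exact h

lemma mon_smul (c : τ →₀ ℕ) (a : ℂ) : (monomial c a : MvPolynomial τ ℂ) = a • monomial c 1 := by
  rw [smul_monomial, smul_eq_mul, mul_one]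

open Classical in
lemma lam_hom {h : MvPolynomial τ ℂ} {d : ℤ} (hh : h.IsWeightedHomogeneous (wi w) d) :
    lam w D L h = if (D : ℤ) ∣ d then Finsupp.single (-(d / D)) ((-1 : ℂ) ^ (d / D : ℤ) * L h)
      else 0 := by
  by_cases hd : (D : ℤ) ∣ d
  · rw [if_pos hd]
    have key : ∀ c ∈ h.support, lam w D L (monomial c (coeff c h)) =
        (Finsupp.lsingle (-(d / D)) ∘ₗ ((-1 : ℂ) ^ (d / D : ℤ) • L)) (monomial c (coeff c h)) := by
      intro c hc
      have h1 : Finsupp.weight (wi w) c = d := hh (mem_support_iff.1 hc)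
      rw [mon_smul, map_smul, map_smul, lam_monomial, lamc, h1, if_pos hd]
      rfl
    have h2 : lam w D L h =
        (Finsupp.lsingle (-(d / D)) ∘ₗ ((-1 : ℂ) ^ (d / D : ℤ) • L)) h := by
      calc lam w D L h = lam w D L (∑ c ∈ h.support, monomial c (coeff c h)) := by
            rw [support_sum_monomial_coeff]
        _ = (Finsupp.lsingle (-(d / D)) ∘ₗ ((-1 : ℂ) ^ (d / D : ℤ) • L))
            (∑ c ∈ h.support, monomial c (coeff c h)) := by
            rw [map_sum, map_sum]
            exact Finset.sum_congr rfl key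
        _ = _ := by rw [support_sum_monomial_coeff]
    rw [h2]
    rfl
  · rw [if_neg hd]
    have key : ∀ c ∈ h.support, lam w D L (monomial c (coeff c h)) = 0 := by
      intro c hc
      have h1 : Finsupp.weight (wi w) c = d := hh (mem_support_iff.1 hc)
      rw [mon_smul, map_smul, lam_monomial, lamc, h1, if_neg hd, smul_zero]
    calc lam w D L h = lam w D L (∑ c ∈ h.support, monomial c (coeff c h)) := by
          rw [support_sum_monomial_coeff]
      _ = 0 := by
          rw [map_sum]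
          exact Finset.sum_eq_zero key

end lam

section psi

variable {σ τ : Type} (w : τ → ℕ) (D : ℕ) (L : MvPolynomial τ ℂ →ₗ[ℂ] ℂ)

/-- the polynomials in `x` and `y` as polynomials in `y` -/
noncomputable def theta : MvPolynomial (σ ⊕ τ) ℂ →ₐ[ℂ] MvPolynomial τ (MvPolynomial σ ℂ) :=
  aeval (Sum.elim (fun i => C (X i)) (fun i => X i))

lemma theta_inl (q : MvPolynomial σ ℂ) :
    theta (rename Sum.inl q : MvPolynomial (σ ⊕ τ) ℂ) = C q := by
  induction q using MvPolynomial.induction_on with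
  | C a =>
    rw [rename_C]
    unfold theta
    rw [aeval_C]
    rfl
  | add p q hp hq => rw [map_add, map_add, hp, hq, map_add]
  | mul_X p i hp =>
    rw [map_mul, map_mul, hp, rename_X, map_mul]
    congr 1
    unfold theta
    rw [aeval_X]
    rfl

lemma theta_inr (q : MvPolynomial τ ℂ) :
    theta (rename Sum.inr q : MvPolynomial (σ ⊕ τ) ℂ) = map (C : ℂ →+* MvPolynomial σ ℂ) q := by
  induction q using MvPolynomial.induction_on with
  | C a =>
    rw [rename_C, map_C]
    unfold theta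
    rw [aeval_C]
    rfl
  | add p q hp hq => rw [map_add, map_add, hp, hq, map_add]
  | mul_X p i hp =>
    rw [map_mul, map_mul, hp, rename_X, map_mul, map_X]
    congr 1
    unfold theta
    rw [aeval_X]
    rfl

noncomputable def em : (ℤ →₀ ℂ) →ₗ[ℂ] (ℤ →₀ MvPolynomial σ ℂ) :=
  Finsupp.mapRange.linearMap (Algebra.linearMap ℂ (MvPolynomial σ ℂ))

lemma em_single (i : ℤ) (z : ℂ) : em (σ := σ) (Finsupp.single i z) = Finsupp.single i (C z) := by
  unfold em
  rw [Finsupp.mapRange.linearMap_apply, Finsupp.mapRange_single]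
  rfl

noncomputable def cst :
    MvPolynomial τ (MvPolynomial σ ℂ) →ₗ[MvPolynomial σ ℂ] (ℤ →₀ MvPolynomial σ ℂ) :=
  (basisMonomials τ (MvPolynomial σ ℂ)).constr (MvPolynomial σ ℂ) fun c => em (lamc w D L c)

lemma cst_monomial (c : τ →₀ ℕ) : cst (σ := σ) w D L (monomial c 1) = em (lamc w D L c) := by
  have h := (basisMonomials τ (MvPolynomial σ ℂ)).constr_basis (MvPolynomial σ ℂ)
    (fun c => em (σ := σ) (lamc w D L c)) c
  rw [coe_basisMonomials] at h
  exact h

lemma cst_map (h : MvPolynomial τ ℂ) :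
    cst (σ := σ) w D L (map (C : ℂ →+* MvPolynomial σ ℂ) h) = em (lam w D L h) := by
  have e : (cst (σ := σ) w D L).restrictScalars ℂ ∘ₗ
      (mapAlgHom (Algebra.ofId ℂ (MvPolynomial σ ℂ)) : MvPolynomial τ ℂ →ₐ[ℂ] _).toLinearMap =
      em ∘ₗ lam w D L := by
    apply (basisMonomials τ ℂ).ext
    intro c
    rw [coe_basisMonomials, LinearMap.comp_apply, LinearMap.comp_apply, lam_monomial]
    change cst w D L (map _ (monomial c 1)) = _
    rw [map_monomial, map_one]
    exact cst_monomial w D L c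
  exact LinearMap.congr_fun e h

noncomputable def psi : MvPolynomial (σ ⊕ τ) ℂ →ₗ[ℂ] (ℤ →₀ MvPolynomial σ ℂ) :=
  (cst w D L).restrictScalars ℂ ∘ₗ (theta (σ := σ) (τ := τ)).toLinearMap

lemma psi_mul (q : MvPolynomial σ ℂ) (h : MvPolynomial τ ℂ) :
    psi w D L (rename Sum.inl q * rename Sum.inr h) = q • em (lam w D L h) := by
  change cst w D L (theta (rename Sum.inl q * rename Sum.inr h)) = _
  rw [map_mul, theta_inl, theta_inr, C_mul', map_smul, cst_map]

/-- the integration over `y` -/
noncomputable def Psi : (ℤ →₀ MvPolynomial (σ ⊕ τ) ℂ) →ₗ[ℂ] (ℤ →₀ MvPolynomial σ ℂ) :=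
  Finsupp.lsum ℂ fun j : ℤ => Finsupp.lmapDomain (MvPolynomial σ ℂ) ℂ (fun i : ℤ => i + j) ∘ₗ
    psi w D L

open Classical in
lemma Psi_hom (j : ℤ) (q : MvPolynomial σ ℂ) {h : MvPolynomial τ ℂ} {d : ℤ}
    (hh : h.IsWeightedHomogeneous (wi w) d) :
    Psi w D L (Finsupp.single j (rename Sum.inl q * rename Sum.inr h)) =
      if (D : ℤ) ∣ d then ((-1 : ℂ) ^ (d / D : ℤ) * L h) • Finsupp.single (j - d / D) q else 0 := by
  unfold Psi
  rw [Finsupp.lsum_single, LinearMap.comp_apply, psi_mul, lam_hom w D L hh]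
  by_cases hd : (D : ℤ) ∣ d
  · rw [if_pos hd, if_pos hd, em_single, Finsupp.smul_single, Finsupp.lmapDomain_apply,
      Finsupp.mapDomain_single, Finsupp.smul_single, smul_eq_mul, mul_comm q, smul_eq_C_mul]
    congr 1
    ring
  · rw [if_neg hd, if_neg hd, map_zero, smul_zero, map_zero]

/-- a criterion for the equality of linear maps -/
lemma ext_gen {M : Type*} [AddCommGroup M] [Module ℂ M]
    {S T : (ℤ →₀ MvPolynomial (σ ⊕ τ) ℂ) →ₗ[ℂ] M}
    (h : ∀ (j : ℤ) (q : MvPolynomial σ ℂ) (c : τ →₀ ℕ),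
      S (Finsupp.single j (rename Sum.inl q * rename Sum.inr (monomial c 1))) =
      T (Finsupp.single j (rename Sum.inl q * rename Sum.inr (monomial c 1)))) : S = T := by
  have hsp : ∀ r : MvPolynomial (σ ⊕ τ) ℂ, r ∈ Submodule.span ℂ
      {r | ∃ (q : MvPolynomial σ ℂ) (c : τ →₀ ℕ),
        r = rename Sum.inl q * rename Sum.inr (monomial c (1 : ℂ))} := by
    intro r
    induction r using MvPolynomial.induction_on with
    | C a =>
      refine Submodule.subset_span ⟨C a, 0, ?_⟩
      rw [rename_C]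
      have h1 : (monomial (0 : τ →₀ ℕ) (1 : ℂ)) = 1 := rfl
      rw [h1, map_one, mul_one]
    | add p q hp hq => exact Submodule.add_mem _ hp hq
    | mul_X p i hp =>
      induction hp using Submodule.span_induction with
      | mem p hp =>
        obtain ⟨q, c, rfl⟩ := hp
        rcases i with i | i
        · refine Submodule.subset_span ⟨q * X i, c, ?_⟩
          rw [map_mul, rename_X]
          ring
        · refine Submodule.subset_span ⟨q, c + Finsupp.single i 1, ?_⟩
          have h1 : (monomial (c + Finsupp.single i 1) (1 : ℂ)) = monomial c 1 * X i := by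
            rw [X, monomial_mul, mul_one]
          rw [h1, map_mul, rename_X, mul_assoc]
      | zero => rw [zero_mul]; exact Submodule.zero_mem _
      | add p q _ _ hp hq => rw [add_mul]; exact Submodule.add_mem _ hp hq
      | smul a p _ hp => rw [smul_mul_assoc]; exact Submodule.smul_mem _ a hp
  apply Finsupp.lhom_ext
  intro j r
  have hr := hsp r
  induction hr using Submodule.span_induction with
  | mem r hr =>
    obtain ⟨q, c, rfl⟩ := hr
    exact h j q c
  | zero => rw [Finsupp.single_zero, map_zero, map_zero]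
  | add p q _ _ hp hq => rw [Finsupp.single_add, map_add, map_add, hp, hq]
  | smul a p _ hp => rw [← Finsupp.smul_single, map_smul, map_smul, hp]

lemma pd_inl_inr (i : σ) (h : MvPolynomial τ ℂ) :
    pderiv (Sum.inl i) (rename Sum.inr h : MvPolynomial (σ ⊕ τ) ℂ) = 0 := by
  classical
  induction h using MvPolynomial.induction_on with
  | C a => rw [rename_C, pderiv_C]
  | add p q hp hq => rw [map_add, map_add, hp, hq, add_zero]
  | mul_X p j hp =>
    rw [map_mul, rename_X, Derivation.leibniz, hp, pderiv_X, Pi.single_eq_of_ne (by simp)]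
    simp

lemma pd_inr_inl (i : τ) (q : MvPolynomial σ ℂ) :
    pderiv (Sum.inr i) (rename Sum.inl q : MvPolynomial (σ ⊕ τ) ℂ) = 0 := by
  classical
  induction q using MvPolynomial.induction_on with
  | C a => rw [rename_C, pderiv_C]
  | add p q hp hq => rw [map_add, map_add, hp, hq, add_zero]
  | mul_X p j hp =>
    rw [map_mul, rename_X, Derivation.leibniz, hp, pderiv_X, Pi.single_eq_of_ne (by simp)]
    simp

lemma pd_inl_inl (i : σ) (q : MvPolynomial σ ℂ) :
    pderiv (Sum.inl i) (rename Sum.inl q : MvPolynomial (σ ⊕ τ) ℂ) = rename Sum.inl (pderiv i q) :=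
  pderiv_rename Sum.inl_injective i q

lemma pd_inr_inr (i : τ) (h : MvPolynomial τ ℂ) :
    pderiv (Sum.inr i) (rename Sum.inr h : MvPolynomial (σ ⊕ τ) ℂ) = rename Sum.inr (pderiv i h) :=
  pderiv_rename Sum.inr_injective i h

end psi

section props

variable {σ τ : Type} [Fintype τ] (w : τ → ℕ) (D : ℕ) (L : MvPolynomial τ ℂ →ₗ[ℂ] ℂ)
  (F : MvPolynomial σ ℂ) (G : MvPolynomial τ ℂ)

/-- `F(x) + G(y)` -/
noncomputable abbrev FG : MvPolynomial (σ ⊕ τ) ℂ := rename Sum.inl F + rename Sum.inr G

lemma hom_int {h : MvPolynomial τ ℂ} {m : ℕ} (hh : h.IsWeightedHomogeneous w m) :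
    h.IsWeightedHomogeneous (wi w) (m : ℤ) := by
  intro c hc
  have h1 := hh hc
  rw [Finsupp.weight_apply] at h1 ⊢
  rw [← h1, Finsupp.sum, Finsupp.sum]
  push_cast
  refine Finset.sum_congr rfl fun i _ => ?_
  simp [wi]

lemma hom_pd {h : MvPolynomial τ ℂ} {d : ℤ} (hh : h.IsWeightedHomogeneous (wi w) d) (i : τ) :
    (pderiv i h).IsWeightedHomogeneous (wi w) (d - w i) :=
  hh.pderiv (by simp [wi])

lemma hom_mon (c : τ →₀ ℕ) :
    (monomial c (1 : ℂ)).IsWeightedHomogeneous (wi w) (Finsupp.weight (wi w) c) :=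
  isWeightedHomogeneous_monomial _ _ _ rfl

variable {w D L G}

/-- Euler -/
lemma euler (hG : G.IsWeightedHomogeneous w D)
    (hL : ∀ i h, L (pderiv i h) = L (pderiv i G * h)) (c : τ →₀ ℕ) :
    (D : ℂ) * L (G * monomial c 1) =
      ((Finsupp.weight (wi w) c : ℤ) + (∑ i, w i : ℕ) : ℂ) * L (monomial c 1) := by
  have h1 := hG.sum_weight_X_mul_pderiv
  have h2 : (monomial c (1 : ℂ)).IsWeightedHomogeneous w (Finsupp.weight w c) :=
    isWeightedHomogeneous_monomial _ _ _ rfl
  have h3 := h2.sum_weight_X_mul_pderiv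
  have h4 : (Finsupp.weight (wi w) c : ℤ) = ((Finsupp.weight w c : ℕ) : ℤ) := by
    rw [Finsupp.weight_apply, Finsupp.weight_apply, Finsupp.sum, Finsupp.sum]
    push_cast
    refine Finset.sum_congr rfl fun i _ => ?_
    simp [wi]
  have h5 : (D : ℂ) * L (G * monomial c 1) = L ((D • G) * monomial c 1) := by
    rw [smul_mul_assoc, map_nsmul, nsmul_eq_mul]
  have h6 : (Finsupp.weight w c : ℂ) * L (monomial c 1) =
      L ((Finsupp.weight w c) • monomial c 1) := by
    rw [map_nsmul, nsmul_eq_mul]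
  rw [h4, Int.cast_natCast, add_mul, h6, ← h3, h5, ← h1, Finset.sum_mul, map_sum, map_sum,
    Nat.cast_sum, Finset.sum_mul, ← Finset.sum_add_distrib]
  refine Finset.sum_congr rfl fun i _ => ?_
  rw [smul_mul_assoc, map_nsmul, map_nsmul, nsmul_eq_mul, nsmul_eq_mul, ← mul_add]
  congr 1
  have h7 : X i * pderiv i G * monomial c 1 = pderiv i G * (X i * monomial c 1) := by ring
  rw [h7, ← hL, Derivation.leibniz, pderiv_X_self, smul_eq_mul, smul_eq_mul, mul_one, map_add]

lemma Psi_ss (hD : 0 < D) (hG : G.IsWeightedHomogeneous w D)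
    (hL : ∀ i h, L (pderiv i h) = L (pderiv i G * h)) (v : ℤ →₀ MvPolynomial (σ ⊕ τ) ℂ) :
    Psi w D L (ss (FG F G) v) = ss F (Psi w D L v) -
      (((∑ i, w i : ℕ) : ℂ) / (D : ℂ)) • Psi w D L v := by
  have e : Psi w D L ∘ₗ ss (FG F G) = ss F ∘ₗ Psi w D L -
      (((∑ i, w i : ℕ) : ℂ) / (D : ℂ)) • Psi w D L := by
    apply ext_gen
    intro j q c
    have hD0 : (D : ℂ) ≠ 0 := by exact_mod_cast hD.ne'
    have hDz : (D : ℤ) ≠ 0 := by exact_mod_cast hD.ne'
    obtain ⟨d, hd⟩ : ∃ d : ℤ, d = Finsupp.weight (wi w) c := ⟨_, rfl⟩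
    have hm := hom_mon w c
    rw [← hd] at hm
    have hGm : (G * monomial c 1).IsWeightedHomogeneous (wi w) ((D : ℤ) + d) :=
      (hom_int w hG).mul hm
    have r1 : FG F G * (rename Sum.inl q * rename Sum.inr (monomial c 1)) =
        rename Sum.inl (F * q) * rename Sum.inr (monomial c 1) +
          rename Sum.inl q * rename Sum.inr (G * monomial c 1) := by
      rw [map_mul, map_mul]
      ring
    rw [LinearMap.comp_apply, LinearMap.sub_apply, LinearMap.comp_apply, LinearMap.smul_apply,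
      ss_single, r1, Finsupp.single_add, map_add, map_add, map_smul, Psi_hom w D L _ _ hm,
      Psi_hom w D L _ _ hm, Psi_hom w D L _ _ hGm]
    by_cases hdd : (D : ℤ) ∣ d
    · obtain ⟨m, rfl⟩ := hdd
      have e1 : (D : ℤ) * m / D = m := Int.mul_ediv_cancel_left m hDz
      have e2 : ((D : ℤ) + D * m) / D = m + 1 := by
        have : (D : ℤ) + D * m = D * (m + 1) := by ring
        rw [this, Int.mul_ediv_cancel_left _ hDz]
      have e3 : (D : ℤ) ∣ D + D * m := ⟨m + 1, by ring⟩
      rw [if_pos (dvd_mul_right _ _), if_pos (dvd_mul_right _ _), if_pos e3, e1, e2, map_smul,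
        ss_single]
      have e4 : j + 1 - (m + 1) = j - m := by ring
      have e5 : j + 1 - m = j - m + 1 := by ring
      have e6 := euler hG hL c
      rw [← hd] at e6
      have e7 : L (G * monomial c 1) =
          ((m : ℂ) + ((∑ i, w i : ℕ) : ℂ) / (D : ℂ)) * L (monomial c 1) := by
        apply mul_left_cancel₀ hD0
        rw [e6]
        push_cast
        field_simp
      rw [e4, e5, e7, zpow_add₀ (by norm_num : (-1 : ℂ) ≠ 0), zpow_one]
      simp only [smul_add, smul_smul, Finsupp.smul_single]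
      rw [add_assoc, add_sub_assoc]
      congr 1
      rw [← Finsupp.single_add, ← Finsupp.single_sub, ← add_smul, ← sub_smul]
      congr 2
      push_cast
      ring
    · have e3 : ¬ (D : ℤ) ∣ D + d := fun h => hdd ((dvd_add_right (dvd_refl _)).1 h)
      simp only [if_neg hdd, if_neg e3, map_zero, smul_zero, sub_zero, add_zero]
  exact LinearMap.congr_fun e v

lemma Psi_Dy (hD : 0 < D) (hG : G.IsWeightedHomogeneous w D)
    (hL : ∀ i h, L (pderiv i h) = L (pderiv i G * h)) (i : τ)
    (v : ℤ →₀ MvPolynomial (σ ⊕ τ) ℂ) : Psi w D L (Dv (FG F G) (Sum.inr i) v) = 0 := by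
  have e : Psi w D L ∘ₗ Dv (FG F G) (Sum.inr i) = 0 := by
    apply ext_gen
    intro j q c
    have hDz : (D : ℤ) ≠ 0 := by exact_mod_cast hD.ne'
    obtain ⟨d, hd⟩ : ∃ d : ℤ, d = Finsupp.weight (wi w) c := ⟨_, rfl⟩
    have hm := hom_mon w c
    rw [← hd] at hm
    have hm' := hom_pd w hm i
    have hGm : (pderiv i G * monomial c 1).IsWeightedHomogeneous (wi w)
        (((D : ℤ) - w i) + d) := (hom_pd w (hom_int w hG) i).mul hm
    have hGm' : (pderiv i G * monomial c 1).IsWeightedHomogeneous (wi w)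
        ((D : ℤ) + (d - w i)) := by
      have : ((D : ℤ) - w i) + d = (D : ℤ) + (d - w i) := by ring
      rw [← this]
      exact hGm
    have r1 : pderiv (Sum.inr i) (FG F G) * (rename Sum.inl q * rename Sum.inr (monomial c 1)) =
          rename Sum.inl q * rename Sum.inr (pderiv i G * monomial c 1) := by
      rw [map_add, pd_inr_inl, pd_inr_inr, zero_add, map_mul]
      ring
    have r2 : pderiv (Sum.inr i) (rename Sum.inl q * rename Sum.inr (monomial c 1) :
        MvPolynomial (σ ⊕ τ) ℂ) = rename Sum.inl q * rename Sum.inr (pderiv i (monomial c 1)) := by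
      rw [Derivation.leibniz, pd_inr_inl, pd_inr_inr, smul_zero, add_zero, smul_eq_mul]
    rw [LinearMap.comp_apply, Dv_single, r1, r2, map_add, Psi_hom w D L _ _ hm',
      Psi_hom w D L _ _ hGm', LinearMap.zero_apply]
    by_cases hdd : (D : ℤ) ∣ d - w i
    · obtain ⟨m, hm2⟩ := hdd
      rw [hm2]
      have e1 : (D : ℤ) * m / D = m := Int.mul_ediv_cancel_left m hDz
      have e2 : ((D : ℤ) + D * m) / D = m + 1 := by
        have : (D : ℤ) + D * m = D * (m + 1) := by ring
        rw [this, Int.mul_ediv_cancel_left _ hDz]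
      have e3 : (D : ℤ) ∣ D + D * m := ⟨m + 1, by ring⟩
      have e4 : j + 1 - (m + 1) = j - m := by ring
      rw [if_pos (dvd_mul_right _ _), if_pos e3, e1, e2, e4, ← hL, ← add_smul,
        zpow_add₀ (by norm_num : (-1 : ℂ) ≠ 0), zpow_one]
      have e5 : (-1 : ℂ) ^ m * L (pderiv i (monomial c 1)) +
          (-1 : ℂ) ^ m * -1 * L (pderiv i (monomial c 1)) = 0 := by ring
      rw [e5, zero_smul]
    · have e3 : ¬ (D : ℤ) ∣ D + (d - w i) := fun h => hdd ((dvd_add_right (dvd_refl _)).1 h)
      rw [if_neg hdd, if_neg e3, add_zero]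
  exact LinearMap.congr_fun e v

lemma Psi_Dx (i : σ) (v : ℤ →₀ MvPolynomial (σ ⊕ τ) ℂ) :
    Psi w D L (Dv (FG F G) (Sum.inl i) v) = Dv F i (Psi w D L v) := by
  have e : Psi w D L ∘ₗ Dv (FG F G) (Sum.inl i) = Dv F i ∘ₗ Psi w D L := by
    apply ext_gen
    intro j q c
    have hm := hom_mon w c
    have r1 : pderiv (Sum.inl i) (FG F G) * (rename Sum.inl q * rename Sum.inr (monomial c 1)) =
          rename Sum.inl (pderiv i F * q) * rename Sum.inr (monomial c 1) := by
      rw [map_add, pd_inl_inl, pd_inl_inr, add_zero, map_mul]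
      ring
    have r2 : pderiv (Sum.inl i) (rename Sum.inl q * rename Sum.inr (monomial c 1) :
        MvPolynomial (σ ⊕ τ) ℂ) = rename Sum.inl (pderiv i q) * rename Sum.inr (monomial c 1) := by
      rw [Derivation.leibniz, pd_inl_inl, pd_inl_inr, smul_zero, zero_add, smul_eq_mul]
      ring
    rw [LinearMap.comp_apply, LinearMap.comp_apply, Dv_single, r1, r2, map_add,
      Psi_hom w D L _ _ hm, Psi_hom w D L _ _ hm, Psi_hom w D L _ _ hm]
    by_cases hdd : (D : ℤ) ∣ Finsupp.weight (wi w) c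
    · rw [if_pos hdd, if_pos hdd, if_pos hdd, map_smul, Dv_single, smul_add]
      have e5 : ∀ m : ℤ, j + 1 - m = j - m + 1 := fun m => by ring
      rw [e5]
    · rw [if_neg hdd, if_neg hdd, if_neg hdd, map_zero, add_zero]
  exact LinearMap.congr_fun e v

lemma Psi_mu (p : MvPolynomial σ ℂ) (v : ℤ →₀ MvPolynomial (σ ⊕ τ) ℂ) :
    Psi w D L (mu (rename Sum.inl p) v) = mu p (Psi w D L v) := by
  have e : Psi w D L ∘ₗ mu (rename Sum.inl p) = mu p ∘ₗ Psi w D L := by
    apply ext_gen
    intro j q c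
    have hm := hom_mon w c
    have r1 : (rename Sum.inl p : MvPolynomial (σ ⊕ τ) ℂ) *
        (rename Sum.inl q * rename Sum.inr (monomial c 1)) =
          rename Sum.inl (p * q) * rename Sum.inr (monomial c 1) := by
      rw [map_mul]
      ring
    rw [LinearMap.comp_apply, LinearMap.comp_apply, mu_single, r1,
      Psi_hom w D L _ _ hm, Psi_hom w D L _ _ hm]
    by_cases hdd : (D : ℤ) ∣ Finsupp.weight (wi w) c
    · rw [if_pos hdd, if_pos hdd, map_smul, mu_single]
    · rw [if_neg hdd, if_neg hdd, map_zero]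
  exact LinearMap.congr_fun e v

end props

/-! ### Commutation of the operators -/

section comm

variable {ι : Type} (f : MvPolynomial ι ℂ)

lemma mu_mu (p q : MvPolynomial ι ℂ) (v : ℤ →₀ MvPolynomial ι ℂ) :
    mu p (mu q v) = mu (p * q) v := by
  have e : mu p ∘ₗ mu q = mu (p * q) := by
    apply ext_single
    intro j r
    rw [LinearMap.comp_apply, mu_single, mu_single, mu_single, mul_assoc]
  exact LinearMap.congr_fun e v

lemma mu_one (v : ℤ →₀ MvPolynomial ι ℂ) : mu 1 v = v := by
  have e : mu (1 : MvPolynomial ι ℂ) = LinearMap.id := by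
    apply ext_single
    intro j r
    rw [mu_single, one_mul]
    rfl
  exact LinearMap.congr_fun e v

lemma mu_ss (q : MvPolynomial ι ℂ) (v : ℤ →₀ MvPolynomial ι ℂ) :
    mu q (ss f v) = ss f (mu q v) := by
  have e : mu q ∘ₗ ss f = ss f ∘ₗ mu q := by
    apply ext_single
    intro j r
    rw [LinearMap.comp_apply, LinearMap.comp_apply, mu_single, ss_single, ss_single, map_add,
      map_smul, mu_single, mu_single]
    have : q * (f * r) = f * (q * r) := by ring
    rw [this]
  exact LinearMap.congr_fun e v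

lemma mu_Dv (i : ι) (q : MvPolynomial ι ℂ) (v : ℤ →₀ MvPolynomial ι ℂ) :
    mu q (Dv f i v) = Dv f i (mu q v) - mu (pderiv i q) v := by
  have e : mu q ∘ₗ Dv f i = Dv f i ∘ₗ mu q - mu (pderiv i q) := by
    apply ext_single
    intro j r
    rw [LinearMap.comp_apply, LinearMap.sub_apply, LinearMap.comp_apply, mu_single, mu_single,
      Dv_single, Dv_single, map_add, mu_single, mu_single, Derivation.leibniz, smul_eq_mul,
      smul_eq_mul, Finsupp.single_add]
    have h1 : q * (pderiv i f * r) = pderiv i f * (q * r) := by ring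
    have h2 : r * pderiv i q = pderiv i q * r := by ring
    rw [h1, h2]
    abel
  exact LinearMap.congr_fun e v

end comm

end Pool.Agent.N87.SU
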