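import Pool.Agent.N87.SU.Core

set_option autoImplicit false

/-! # Functional equations as elements of a formal submodule -/

namespace Pool.Agent.N87.SU

open MvPolynomial
open Pool.Agent.H628R4.TP (weylS IsBFunction)

section gen

variable {ι : Type} (f : MvPolynomial ι ℂ)

lemma kj_neg_one (k : ℕ) : kj k (-1) = ((k : ℂ) + 1)⁻¹ := by
  have h0 : kj k (-1 + 1) = ((k : ℂ) - ((-1 : ℤ) : ℂ)) * kj k (-1) := kj_succ k (-1)
  rw [neg_add_cancel, kj_zero] at h0
  push_cast at h0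
  rw [sub_neg_eq_add] at h0
  exact eq_inv_of_mul_eq_one_right h0.symm

lemma ev_ss_pow (k m : ℕ) (v : ℤ →₀ MvPolynomial ι ℂ) : ev f k
    ((ss f ^ m : Module.End ℂ (ℤ →₀ MvPolynomial ι ℂ)) v) = ((k : ℂ) ^ m) • ev f k v := by
  induction m with
  | zero => rw [pow_zero, pow_zero, one_smul]; rfl
  | succ m ih => rw [pow_succ', Module.End.mul_apply, ev_ss, ih, smul_smul, pow_succ']

lemma ev_single_neg_one (k : ℕ) : ev f k (Finsupp.single (-1) 1) =
    ((k : ℂ) + 1)⁻¹ • f ^ (k + 1) := by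
  have h2 : ((k : ℤ) - (-1)).toNat = k + 1 := by omega
  rw [ev_single, one_mul, kj_neg_one, h2]

lemma ev_single_zero_one (k : ℕ) : ev f k (Finsupp.single 0 1) = f ^ k := by
  have h2 : ((k : ℤ) - 0).toNat = k := by omega
  rw [ev_single, one_mul, kj_zero, h2, one_smul]

lemma eV (b' : Polynomial ℂ) (k : ℕ) :
    ev f k (Polynomial.aeval (ss f : Module.End ℂ (ℤ →₀ MvPolynomial ι ℂ)) b'
      (Finsupp.single 0 1)) = b'.eval (k : ℂ) • f ^ k := by
  have h1 := aeval_op (ss f) (ev f k) (k : ℂ) (fun v => ev_ss f k v) b' (Finsupp.single 0 1)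
  rw [ev_single_zero_one] at h1
  exact h1

lemma pow_mem (SS : Submodule ℂ (ℤ →₀ MvPolynomial ι ℂ)) (h3 : ∀ v ∈ SS, ss f v ∈ SS)
    (v : ℤ →₀ MvPolynomial ι ℂ) (hv : v ∈ SS) (m : ℕ) :
    (ss f ^ m : Module.End ℂ (ℤ →₀ MvPolynomial ι ℂ)) v ∈ SS := by
  induction m with
  | zero => rw [pow_zero]; exact hv
  | succ m ih => rw [pow_succ', Module.End.mul_apply]; exact h3 _ ih

end gen

end Pool.Agent.N87.SU
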