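import Pool.Agent.N87.SU.Gen

set_option autoImplicit false

/-! # Functional equations as elements of a formal submodule -/

namespace Pool.Agent.N87.SU

open MvPolynomial
open Pool.Agent.H628R4.TP (weylS IsBFunction)

section gen

variable {ι : Type} (f : MvPolynomial ι ℂ)

/-- the element of the formal module given by a functional equation -/
lemma exU (P : ℕ →₀ weylS ι) : ∃ U : ℤ →₀ MvPolynomial ι ℂ,
    (∀ k : ℕ, ev f k U = ((k : ℂ) + 1)⁻¹ •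
      P.sum fun m Q => ((k : ℂ) ^ m) • (Q : Module.End ℂ (MvPolynomial ι ℂ)) (f ^ (k + 1))) ∧
    ∀ SS : Submodule ℂ (ℤ →₀ MvPolynomial ι ℂ), (∀ i, ∀ v ∈ SS, mu (X i) v ∈ SS) →
      (∀ i, ∀ v ∈ SS, Dv f i v ∈ SS) → (∀ v ∈ SS, ss f v ∈ SS) → Finsupp.single (-1) 1 ∈ SS →
      U ∈ SS := by
  choose R hR1 hR2 using fun m : ℕ => lift f (P m).1 (P m).2
  refine ⟨∑ m ∈ P.support, R m ((ss f ^ m : Module.End ℂ (ℤ →₀ MvPolynomial ι ℂ))
    (Finsupp.single (-1) 1)), fun k => ?_, fun SS s1 s2 s3 s4 => ?_⟩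
  · rw [map_sum, Finsupp.sum, Finset.smul_sum]
    refine Finset.sum_congr rfl fun m _ => ?_
    rw [hR1, ev_ss_pow, ev_single_neg_one, map_smul, map_smul, smul_smul, smul_smul, mul_comm]
  · exact SS.sum_mem fun m _ => hR2 m SS s1 s2 _ (pow_mem f SS s3 _ s4 m)

theorem exV (hf0 : f ≠ 0) (hfu : ¬ f ∣ 1) (b : Polynomial ℂ) (hb : IsBFunction f b) :
    ∃ b' : Polynomial ℂ, b = (Polynomial.X + 1) * b' ∧
    ∀ SS : Submodule ℂ (ℤ →₀ MvPolynomial ι ℂ), (∀ i, ∀ v ∈ SS, mu (X i) v ∈ SS) →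
      (∀ i, ∀ v ∈ SS, Dv f i v ∈ SS) → (∀ v ∈ SS, ss f v ∈ SS) → Finsupp.single (-1) 1 ∈ SS →
      Polynomial.aeval (ss f : Module.End ℂ (ℤ →₀ MvPolynomial ι ℂ)) b' (Finsupp.single 0 1) ∈ SS := by
  obtain ⟨P, hP⟩ := hb
  have hroot : b.eval (-1) = 0 := by
    refine Pool.Agent.W574.HS.minus_one f 1 hf0 hfu b P fun s => ?_
    rw [one_mul]
    exact hP s
  obtain ⟨b', hb'⟩ : ∃ b' : Polynomial ℂ, b = (Polynomial.X + 1) * b' := by
    have h1 : (Polynomial.X - Polynomial.C (-1 : ℂ)) ∣ b := Polynomial.dvd_iff_isRoot.2 hroot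
    have h2 : (Polynomial.X - Polynomial.C (-1 : ℂ)) = Polynomial.X + 1 := by
      rw [map_neg, map_one, sub_neg_eq_add]
    rw [h2] at h1
    exact h1
  refine ⟨b', hb', fun SS s1 s2 s3 s4 => ?_⟩
  obtain ⟨U, hU1, hU2⟩ := exU f P
  have hU := hU2 SS s1 s2 s3 s4
  obtain ⟨V, hV⟩ : ∃ V : ℤ →₀ MvPolynomial ι ℂ,
    V = Polynomial.aeval (ss f : Module.End ℂ (ℤ →₀ MvPolynomial ι ℂ)) b'
      (Finsupp.single 0 1) := ⟨_, rfl⟩
  rw [← hV]
  have hUV : U - V = 0 := by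
    apply ev_inj f hf0
    intro k
    have hk1 : ((k : ℂ) + 1) ≠ 0 := by exact_mod_cast Nat.succ_ne_zero k
    rw [map_sub, hV, eV, hU1, ← hP k, hb', Polynomial.eval_mul, Polynomial.eval_add,
      Polynomial.eval_X, Polynomial.eval_one, ← smul_eq_C_mul, smul_smul, ← mul_assoc,
      inv_mul_cancel₀ hk1, one_mul, sub_self]
  rw [← sub_eq_zero.1 hUV]
  exact hU

end gen

end Pool.Agent.N87.SU
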